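import Pool.Agent.H294P.Final

/-!
All `n > 3` at once, for the quadratic polynomials whose parameter `c` does not satisfy a strong
condition at the primes dividing its denominator.
-/

set_option autoImplicit false

namespace Pool.Agent.Results.MP_34cc05_nt.Denominator

open Polynomial

/-- For a quadratic `f`, conjugate to `X² + c`, and every `n > 3`, the primes at which the `n`-th
dynatomic polynomial has a root (modulo `p` or in `ℚ_p`) have upper density less than one, unless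
the denominator of `c` is a perfect square divisible by 144, `f` has a fixed point in `ℚ_l` for
every prime `l` dividing the denominator of `4 c`, and `c ≤ -5/4`. -/
theorem result (f : ℚ[X]) (hf : f.natDegree = 2) (c : ℚ)
    (hc : c = f.coeff 2 * f.coeff 0 + f.coeff 1 / 2 - f.coeff 1 ^ 2 / 4)
    (h : ¬ (IsSquare c.den ∧ 144 ∣ c.den ∧
      (∀ (l : ℕ) (_ : Fact l.Prime), l ∣ (4 * c).den → ∃ x : ℚ_[l], aeval x f = x) ∧
      c ≤ -5 / 4))
    (n : ℕ) (hn : 3 < n) (Φ : ℚ[X])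
    (hΦ : algebraMap ℚ[X] (RatFunc ℚ) Φ = ∏ d ∈ n.divisors,
      (algebraMap ℚ[X] (RatFunc ℚ) ((f.comp)^[d] X - X)) ^ (ArithmeticFunction.moebius (n / d)))
    (Ψ : ℤ[X]) (e : ℤ) (he : e ≠ 0) (hΨ : Ψ.map (Int.castRingHom ℚ) = C (e : ℚ) * Φ) :
    ∃ r : ℝ, r < 1 ∧ ∃ N₀ : ℕ, ∀ N : ℕ, N₀ ≤ N →
      (({p : ℕ | p ≤ N ∧ p.Prime ∧
          ((∃ x : ZMod p, (Ψ.map (Int.castRingHom (ZMod p))).IsRoot x) ∨
            ∃ _ : Fact p.Prime, ∃ x : ℚ_[p], aeval x Φ = 0)}.ncard : ℝ) /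
        ({p : ℕ | p ≤ N ∧ p.Prime}.ncard : ℝ)) ≤ r := by
  refine H294P.conclude hf hc ?_ hΦ he hΨ
  by_contra hG
  obtain ⟨h1, h2, h3, _⟩ := H294P.exceptions hn hG
  refine h ⟨h1, h2, fun l hl hld => ?_, h3⟩
  by_contra hcon
  push Not at hcon
  exact hG (H294P.good_bad l (H294P.norm_gt_one hld) (H294P.fixed_transfer hf hc hcon) n)

end Pool.Agent.Results.MP_34cc05_nt.Denominator
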