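import Pool.Agent.H294P.Fin
import Pool.Agent.H294P.Burn

/-!
The number of irreducible factors of the dynatomic polynomial.
-/

set_option autoImplicit false

namespace Pool.Agent.Results.MP_34cc05_nt.FactorCount

open Polynomial

/-- For every quadratic `f` and every `n > 3`: if the `n`-th dynatomic polynomial `Φ` of `f` has at
most `n` monic irreducible factors over `ℚ`, then the primes at which it has a root (modulo `p` or
in `ℚ_p`) have upper density less than one. -/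
theorem result (f : ℚ[X]) (hf : f.natDegree = 2) (n : ℕ) (hn : 3 < n) (Φ : ℚ[X])
    (hΦ : algebraMap ℚ[X] (RatFunc ℚ) Φ = ∏ d ∈ n.divisors,
      (algebraMap ℚ[X] (RatFunc ℚ) ((f.comp)^[d] X - X)) ^ (ArithmeticFunction.moebius (n / d)))
    (hfac : ∀ S : Finset ℚ[X], (∀ g ∈ S, g.Monic ∧ Irreducible g ∧ g ∣ Φ) → S.card ≤ n)
    (Ψ : ℤ[X]) (e : ℤ) (he : e ≠ 0) (hΨ : Ψ.map (Int.castRingHom ℚ) = C (e : ℚ) * Φ) :
    ∃ r : ℝ, r < 1 ∧ ∃ N₀ : ℕ, ∀ N : ℕ, N₀ ≤ N →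
      (({p : ℕ | p ≤ N ∧ p.Prime ∧
          ((∃ x : ZMod p, (Ψ.map (Int.castRingHom (ZMod p))).IsRoot x) ∨
            ∃ _ : Fact p.Prime, ∃ x : ℚ_[p], aeval x Φ = 0)}.ncard : ℝ) /
        ({p : ℕ | p ≤ N ∧ p.Prime}.ncard : ℝ)) ≤ r :=
  H294P.conclude hf rfl (H294P.main4 hf hn rfl (H294P.ratfunc_identity hf hΦ) hfac) hΦ he hΨ

end Pool.Agent.Results.MP_34cc05_nt.FactorCount
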