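import Pool.Agent.H294P.Final

/-!
A criterion at an odd prime of good reduction.
-/

set_option autoImplicit false

namespace Pool.Agent.Results.MP_34cc05_nt.GoodPrime

open Polynomial

/-- Let `f` be quadratic, conjugate to `X² + c`, let `n > 3`, and let `q` be an odd prime not
dividing the denominator of `c`. If `n` is neither the exact period `m` of a point `t` of `ZMod q`
under `X² + c` nor the product of `m` and the multiplicative order of the multiplier of its orbit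
(for instance if `q² ≤ 2 n`, or if `n` has a prime factor larger than `(q + 1) / 2`), then the
primes at which the `n`-th dynatomic polynomial has a root (modulo `p` or in `ℚ_p`) have upper
density less than one. -/
theorem result (f : ℚ[X]) (hf : f.natDegree = 2) (c : ℚ)
    (hc : c = f.coeff 2 * f.coeff 0 + f.coeff 1 / 2 - f.coeff 1 ^ 2 / 4) (n : ℕ) (hn : 3 < n)
    (q : ℕ) [Fact q.Prime] (hq2 : q ≠ 2) (hqc : ¬ q ∣ c.den)
    (h : q ^ 2 ≤ 2 * n ∨ (∃ l : ℕ, l.Prime ∧ l ∣ n ∧ q + 1 < 2 * l) ∨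
      ∀ (t : ZMod q) (m : ℕ),
        m = Function.minimalPeriod (fun y => y ^ 2 + (c.num : ZMod q) / (c.den : ZMod q)) t →
        m ∣ n → n ≠ m ∧ n ≠ m * orderOf (∏ i ∈ Finset.range m,
          (2 * (fun y => y ^ 2 + (c.num : ZMod q) / (c.den : ZMod q))^[i] t)))
    (Φ : ℚ[X])
    (hΦ : algebraMap ℚ[X] (RatFunc ℚ) Φ = ∏ d ∈ n.divisors,
      (algebraMap ℚ[X] (RatFunc ℚ) ((f.comp)^[d] X - X)) ^ (ArithmeticFunction.moebius (n / d)))
    (Ψ : ℤ[X]) (e : ℤ) (he : e ≠ 0) (hΨ : Ψ.map (Int.castRingHom ℚ) = C (e : ℚ) * Φ) :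
    ∃ r : ℝ, r < 1 ∧ ∃ N₀ : ℕ, ∀ N : ℕ, N₀ ≤ N →
      (({p : ℕ | p ≤ N ∧ p.Prime ∧
          ((∃ x : ZMod p, (Ψ.map (Int.castRingHom (ZMod p))).IsRoot x) ∨
            ∃ _ : Fact p.Prime, ∃ x : ℚ_[p], aeval x Φ = 0)}.ncard : ℝ) /
        ({p : ℕ | p ≤ N ∧ p.Prime}.ncard : ℝ)) ≤ r := by
  refine H294P.conclude hf hc ?_ hΦ he hΨ
  by_contra hG
  obtain ⟨_, _, _, _, h1, _⟩ := H294P.exceptions hn hG
  obtain ⟨h2, h3, t, m, hmn, hm, h4⟩ := h1 q inferInstance hq2 hqc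
  rcases h with h | ⟨l, hl, hln, hlq⟩ | h
  · omega
  · have := h3 l hl hln
    omega
  · obtain ⟨h5, h6⟩ := h t m hm hmn
    rcases h4 with h4 | h4
    · exact h5 h4
    · exact h6 h4

end Pool.Agent.Results.MP_34cc05_nt.GoodPrime
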